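import Pool.Agent.H2.EK.Targets
import Pool.Agent.H64.NLW.LOC

/-! THA: assembly of the theorem on the numerical motive in even dimension. -/

set_option autoImplicit false

open Matrix Pool.Agent.H2.NL Pool.Agent.H2.KM Pool.Agent.H64.CC Pool.Agent.H64.EV Pool.Agent.H2.EK

namespace Pool.Agent.H86.EK

open Pool.Agent.H64.NLW (van)

theorem pf_THA (h1 : T_EPO) (h2 : T_SCO) (h3 : T_VAO) (h4 : T_ADO) (h5 : T_CAO) (h6 : T_SYO)
    (h7 : T_OSD) (h8 : T_OER) (h8' : T_TPR) (h9 : T_KIA) (h10 : T_NTA) (h11 : T_NTB)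
    (h12 : T_CPA) (h13 : T_APA) : T_THA := by
  intro K _ _ W hW V L hL r m T S
  obtain ⟨ε, hε, hεε, hεadj, hεV, hεmax⟩ := h1 K W hW V L hL r m T S
  obtain ⟨-, -, hv3, -⟩ := h3 K W hW V L hL r m T S
  have hc : ∃ c ∈ W.cyc V V (-(r : ℤ)), ε = W.comp (W.comp S.up c) S.down := by
    obtain ⟨q, c, hc, he⟩ := h2 K W hW V L hL r m T S ε hε
    obtain ⟨u, hu0, hu1, hu2⟩ := S.vanishing
    have h := hεV u ⟨hu1, hu2⟩
    have e1 : W.ap ε u = (q : K) • u := by
      rw [he]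
      change (((q : K) • (1 : W.Hom T T)) + (S.up * c) * S.down) *ᵥ u = _
      rw [Matrix.add_mulVec, Matrix.smul_mulVec, Matrix.one_mulVec, ← Matrix.mulVec_mulVec]
      have hu3 : S.down *ᵥ u = 0 := hu2
      rw [hu3, Matrix.mulVec_zero, add_zero]
    rw [e1, smul_eq_zero] at h
    rcases h with h | h
    · refine ⟨c, hc, ?_⟩
      have e2 : W.rat q (W.id T) = 0 := by
        change (q : K) • (1 : W.Hom T T) = 0
        rw [h, zero_smul]
      rw [e2, zero_add] at he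
      exact he
    · exact absurd h hu0
  have hρ : (1 : W.Hom T T) - ε ∈ W.cyc T T 0 :=
    (W.cyc T T 0).sub_mem (hW.calculus.one_mem T) hε
  have hρρ : ((1 : W.Hom T T) - ε) * (1 - ε) = 1 - ε := by
    rw [mul_sub, mul_one, sub_mul, one_mul, hεε, sub_self, sub_zero]
  have hρadj : ((1 : W.Hom T T) - ε)ᵀ * S.powers.form = S.powers.form * (1 - ε) := by
    rw [Matrix.transpose_sub, Matrix.transpose_one, sub_mul, one_mul, hεadj, mul_sub, mul_one]
  have hρdeg : ∀ a b, ((1 : W.Hom T T) - ε) a b ≠ 0 → W.deg T a = W.deg T b := by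
    intro a b hab
    have h := hW.calculus.cyc_deg T T 0 _ hρ a b hab
    omega
  have hρU : ∀ u ∈ van S.toGenericIntersection, ((1 : W.Hom T T) - ε) *ᵥ u = u := by
    intro u hu
    have h := hεV u hu
    have h' : ε *ᵥ u = 0 := h
    rw [Matrix.sub_mulVec, Matrix.one_mulVec, h', sub_zero]
  obtain ⟨n, n', ⟨D⟩⟩ := h4 K (W.rk T) (W.deg T) (W.dim T) S.powers.form (1 - ε) S.even
    S.powers.form_deg S.powers.form_symm S.powers.form_unit hρρ hρadj hρdeg
    (van S.toGenericIntersection) (fun u hu => hu.1) hρU (fun u hu hv => hv3 u hu hv)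
  have hsys := h6 K W hW V L hL r m T S ε hε hεε hεadj hεV hεmax
    (van S.toGenericIntersection) (fun u => Iff.rfl) n n' D
  have hcal := h5 K W m T S.powers (1 - ε) hρ (van S.toGenericIntersection) n n' D
  obtain ⟨-, t, ht1, -, hsd⟩ := h7 K (Fin n) (Fin n') D.F _ hsys
  have hER := h8 K (Fin n) (Fin n') D.F _ hsys
  have hsd' : D.F.sd = ((t + 1 : ℕ) : K) - 1 := by
    rw [hsd]
    push_cast
    ring
  have hkim := h9 K (Fin n ⊕ Fin n') D.F _ hcal (t + 1)
    (fun x hx hsym => h8' K (Fin n ⊕ Fin n') D.F _ hcal hER (t + 1) x (by omega) hsd' hx hsym)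
  have hnt := h10 K W hW m T S.powers (1 - ε) hρ hρρ (van S.toGenericIntersection) n n' D
    (t + 1) hkim
  obtain ⟨hstr, hnn⟩ := h11 K W hW m T S.powers (1 - ε) hρ hρρ (van S.toGenericIntersection)
    n n' D
  exact ⟨ε, hε, hc, hεε, hεadj, hεV, hεmax, h13 K W hW m T S.powers (1 - ε) hρ, t,
    ht1, hstr.trans hsd, hnt, fun N hN => hnn N t hsd hN,
    h12 K W hW V L hL r m T S ε hε hεε hεV hεmax t (hstr.trans hsd)⟩

end Pool.Agent.H86.EK
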